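import Mathlib

/-!
# The random `(x,y)` edge removal process on task dependency graphs

For fixed `x, y` the process on `n` vertices stops at an `(x,y)` graph with probability
tending to one.
-/

open Finset Filter Topology

namespace Pool.Agent.Results.MP_f59edb_pr.LimitOne

/-- A graph on `Fin n` is given by its set of directed edges. -/
abbrev Graph (n : ℕ) := Finset (Fin n × Fin n)

/-- The complete task dependency graph: all pairs `(a, b)` with `a < b`. -/
def complete (n : ℕ) : Graph n := univ.filter fun e => e.1 < e.2

/-- The initial vertices (no incoming edge). -/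
def inits {n : ℕ} (E : Graph n) : Finset (Fin n) := univ.filter fun v => ∀ e ∈ E, e.2 ≠ v

/-- The terminal vertices (no outgoing edge). -/
def terms {n : ℕ} (E : Graph n) : Finset (Fin n) := univ.filter fun v => ∀ e ∈ E, e.1 ≠ v

/-- The edges whose removal leaves at most `x` initial and at most `y` terminal vertices. -/
def removable {n : ℕ} (x y : ℕ) (E : Graph n) : Finset (Fin n × Fin n) :=
  E.filter fun e => (inits (E.erase e)).card ≤ x ∧ (terms (E.erase e)).card ≤ y

/-- One step: remove a uniformly chosen removable edge; stay if there is none. -/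
noncomputable def step {n : ℕ} (x y : ℕ) (E : Graph n) : PMF (Graph n) :=
  if h : (removable x y E).Nonempty then
    (PMF.uniformOfFinset (removable x y E) h).map fun e => E.erase e
  else PMF.pure E

/-- The law of the graph after `k` steps from `E`. -/
noncomputable def run {n : ℕ} (x y : ℕ) : ℕ → Graph n → PMF (Graph n)
  | 0, E => PMF.pure E
  | k + 1, E => (step x y E).bind (run x y k)

/-- `E` is an `(x,y)` task dependency graph: exactly `x` initial and `y` terminal vertices. -/
def IsXY {n : ℕ} (x y : ℕ) (E : Graph n) : Prop :=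
  E ⊆ complete n ∧ (inits E).card = x ∧ (terms E).card = y

/-- The probability that the process started at the complete graph stops at an `(x,y)` graph.
The complete graph has `n.choose 2` edges, so that the process has stopped after that many
steps. -/
noncomputable def r (x y n : ℕ) : ℝ :=
  ((run x y (n.choose 2) (complete n)).toOuterMeasure {E | IsXY x y E}).toReal

/-! ### The recursion in real numbers -/

variable {n : ℕ} {x y : ℕ}

/-- Real probability of an event after `k` steps. -/
noncomputable def q (x y k : ℕ) (E : Graph n) (A : Set (Graph n)) : ℝ :=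
  ((run x y k E).toOuterMeasure A).toReal

theorem le_one' (p : PMF (Graph n)) (A : Set (Graph n)) : p.toOuterMeasure A ≤ 1 := by
  rw [PMF.toOuterMeasure_apply]
  calc ∑' E, A.indicator p E ≤ ∑' E, p E :=
        ENNReal.tsum_le_tsum fun E => Set.indicator_le_self _ _ _
    _ = 1 := p.tsum_coe

theorem q_nonneg (k : ℕ) (E : Graph n) (A : Set (Graph n)) : 0 ≤ q x y k E A :=
  ENNReal.toReal_nonneg

theorem q_le_one (k : ℕ) (E : Graph n) (A : Set (Graph n)) : q x y k E A ≤ 1 := by
  unfold q
  exact ENNReal.toReal_mono ENNReal.one_ne_top (le_one' _ _)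

theorem q_zero (E : Graph n) (A : Set (Graph n)) [Decidable (E ∈ A)] :
    q x y 0 E A = if E ∈ A then 1 else 0 := by
  unfold q run
  rw [PMF.toOuterMeasure_pure_apply]
  split_ifs <;> simp_all

theorem q_stuck (k : ℕ) (E : Graph n) (A : Set (Graph n)) (h : removable x y E = ∅) :
    q x y (k + 1) E A = q x y k E A := by
  unfold q
  simp only [run]
  unfold step
  rw [dif_neg (by rw [h]; simp)]
  rw [PMF.pure_bind]

theorem q_succ (k : ℕ) (E : Graph n) (A : Set (Graph n)) (h : (removable x y E).Nonempty) :
    q x y (k + 1) E A =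
      (∑ e ∈ removable x y E, q x y k (E.erase e) A) / (removable x y E).card := by
  unfold q
  simp only [run]
  unfold step
  rw [dif_pos h, PMF.bind_map, PMF.toOuterMeasure_bind_apply]
  rw [tsum_eq_sum (s := removable x y E)]
  · rw [ENNReal.toReal_sum]
    · rw [Finset.sum_div]
      refine Finset.sum_congr rfl fun e he => ?_
      rw [PMF.uniformOfFinset_apply_of_mem h he, ENNReal.toReal_mul, ENNReal.toReal_inv,
        ENNReal.toReal_natCast]
      simp only [Function.comp_apply]
      rw [div_eq_mul_inv, mul_comm]
    · intro e he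
      refine ENNReal.mul_ne_top ?_ ?_
      · exact PMF.apply_ne_top _ _
      · exact ne_top_of_le_ne_top ENNReal.one_ne_top (le_one' _ _)
  · intro e he
    rw [PMF.uniformOfFinset_apply_of_notMem h he, zero_mul]

theorem q_of_stuck (k : ℕ) (E : Graph n) (A : Set (Graph n)) [Decidable (E ∈ A)]
    (h : removable x y E = ∅) : q x y k E A = if E ∈ A then 1 else 0 := by
  induction k with
  | zero => exact q_zero E A
  | succ k ih => rw [q_stuck k E A h, ih]

/-! ### Two general lemmas on the process -/

/-- If every stopped graph lies in one of the events, their probabilities add to at least one. -/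
theorem cover (Inv : Graph n → Prop)
    (hInv : ∀ E, Inv E → ∀ e ∈ removable x y E, Inv (E.erase e))
    {ι : Type*} (I : Finset ι) (A : Set (Graph n)) (B : ι → Set (Graph n))
    (hc : ∀ F, Inv F → removable x y F = ∅ → F ∈ A ∨ ∃ i ∈ I, F ∈ B i) :
    ∀ k (E : Graph n), Inv E → E.card ≤ k → 1 ≤ q x y k E A + ∑ i ∈ I, q x y k E (B i) := by
  classical
  have stuck : ∀ k (E : Graph n), Inv E → removable x y E = ∅ →
      1 ≤ q x y k E A + ∑ i ∈ I, q x y k E (B i) := by
    intro k E hE h
    rcases hc E hE h with h1 | ⟨i, hi, h1⟩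
    · rw [q_of_stuck k E A h, if_pos h1]
      have : 0 ≤ ∑ i ∈ I, q x y k E (B i) := Finset.sum_nonneg fun i _ => q_nonneg _ _ _
      linarith
    · have h2 : q x y k E (B i) ≤ ∑ i ∈ I, q x y k E (B i) :=
        Finset.single_le_sum (f := fun i => q x y k E (B i)) (fun i _ => q_nonneg _ _ _) hi
      rw [q_of_stuck k E (B i) h, if_pos h1] at h2
      have := q_nonneg (x := x) (y := y) k E A
      linarith
  intro k
  induction k with
  | zero =>
    intro E hE hk
    have : E = ∅ := Finset.card_eq_zero.mp (Nat.le_zero.mp hk)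
    refine stuck 0 E hE ?_
    subst this
    rfl
  | succ k ih =>
    intro E hE hk
    by_cases h : removable x y E = ∅
    · exact stuck _ E hE h
    · have hne : (removable x y E).Nonempty := Finset.nonempty_iff_ne_empty.mpr h
      have hpos : (0 : ℝ) < (removable x y E).card := by
        exact_mod_cast Finset.card_pos.mpr hne
      rw [q_succ k E A hne]
      simp_rw [q_succ k E _ hne]
      rw [← Finset.sum_div, ← add_div, Finset.sum_comm, ← Finset.sum_add_distrib, le_div_iff₀ hpos]
      rw [one_mul]
      calc ((removable x y E).card : ℝ) = ∑ e ∈ removable x y E, (1 : ℝ) := by simp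
        _ ≤ _ := by
          refine Finset.sum_le_sum fun e he => ?_
          refine ih (E.erase e) (hInv E hE e he) ?_
          have hm : e ∈ E := (Finset.mem_filter.mp he).1
          have := Finset.card_erase_of_mem hm
          omega

/-- The potential estimate. -/
theorem potential (Inv P : Graph n → Prop) (G : Finset (Fin n × Fin n)) (e0 : Fin n × Fin n)
    (he0 : e0 ∈ G)
    (hInv : ∀ E, Inv E → ∀ e ∈ removable x y E, Inv (E.erase e))
    (hP : ∀ E e, ¬ P E → ¬ P (E.erase e))
    (hR : ∀ E, Inv E → P E → 2 ≤ (E ∩ G).card → E ∩ G ⊆ removable x y E) :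
    ∀ k (E : Graph n), Inv E → q x y k E {F | e0 ∈ F ∧ (F ∩ G).card ≤ 1 ∧ P F} ≤
      if e0 ∈ E then 1 / ((E ∩ G).card : ℝ) else 0 := by
  classical
  intro k
  have hbnd : ∀ E : Graph n, 0 ≤ if e0 ∈ E then 1 / ((E ∩ G).card : ℝ) else 0 := by
    intro E
    split_ifs <;> positivity
  have hnP : ∀ k (E : Graph n), ¬ P E →
      q x y k E {F | e0 ∈ F ∧ (F ∩ G).card ≤ 1 ∧ P F} ≤ 0 := by
    intro k
    induction k with
    | zero =>
      intro E hE
      rw [q_zero, if_neg]
      rintro ⟨_, _, h⟩
      exact hE h
    | succ k ih =>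
      intro E hE
      by_cases h : removable x y E = ∅
      · rw [q_stuck k E _ h]
        exact ih E hE
      · have hne : (removable x y E).Nonempty := Finset.nonempty_iff_ne_empty.mpr h
        rw [q_succ k E _ hne]
        refine div_nonpos_of_nonpos_of_nonneg ?_ (Nat.cast_nonneg _)
        exact Finset.sum_nonpos fun e _ => ih _ (hP E e hE)
  induction k with
  | zero =>
    intro E _
    rw [q_zero]
    by_cases h : E ∈ {F : Graph n | e0 ∈ F ∧ (F ∩ G).card ≤ 1 ∧ P F}
    · rw [if_pos h]
      obtain ⟨h1, h2, _⟩ := h
      rw [if_pos h1]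
      have h3 : e0 ∈ E ∩ G := Finset.mem_inter.mpr ⟨h1, he0⟩
      have h4 : (E ∩ G).card = 1 := le_antisymm h2 (Finset.card_pos.mpr ⟨e0, h3⟩)
      rw [h4]
      simp
    · rw [if_neg h]
      exact hbnd E
  | succ k ih =>
    intro E hE
    by_cases hPE : P E
    swap
    · exact (hnP (k + 1) E hPE).trans (hbnd E)
    by_cases h : removable x y E = ∅
    · rw [q_stuck k E _ h]
      exact ih E hE
    have hne : (removable x y E).Nonempty := Finset.nonempty_iff_ne_empty.mpr h
    have hpos : (0 : ℝ) < (removable x y E).card := by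
      exact_mod_cast Finset.card_pos.mpr hne
    by_cases h0 : e0 ∈ E
    swap
    · rw [if_neg h0, q_succ k E _ hne]
      refine div_nonpos_of_nonpos_of_nonneg ?_ (Nat.cast_nonneg _)
      refine Finset.sum_nonpos fun e he => ?_
      have := ih _ (hInv E hE e he)
      rwa [if_neg (fun h' => h0 (Finset.mem_of_mem_erase h'))] at this
    rw [if_pos h0]
    have h3 : e0 ∈ E ∩ G := Finset.mem_inter.mpr ⟨h0, he0⟩
    have hm1 : 1 ≤ (E ∩ G).card := Finset.card_pos.mpr ⟨e0, h3⟩
    by_cases hm2 : (E ∩ G).card = 1
    · rw [hm2]
      simpa using q_le_one (x := x) (y := y) (k + 1) E _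
    have hm : 2 ≤ (E ∩ G).card := by omega
    have hsub := hR E hE hPE hm
    rw [q_succ k E _ hne, div_le_iff₀ hpos]
    obtain ⟨m, hmm⟩ : ∃ m, (E ∩ G).card = m + 2 := ⟨(E ∩ G).card - 2, by omega⟩
    have hterm : ∀ e ∈ removable x y E,
        q x y k (E.erase e) {F | e0 ∈ F ∧ (F ∩ G).card ≤ 1 ∧ P F} ≤
          (if e ∈ E ∩ G then (if e = e0 then 0 else 1 / ((m : ℝ) + 1)) else 1 / ((m : ℝ) + 2)) := by
      intro e he
      have h1 := ih _ (hInv E hE e he)
      have heE : e ∈ E := (Finset.mem_filter.mp he).1
      by_cases hee : e = e0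
      · subst hee
        rw [if_neg (Finset.notMem_erase _ _)] at h1
        rw [if_pos h3, if_pos rfl]
        exact h1
      · rw [if_pos (Finset.mem_erase.mpr ⟨fun h' => hee h'.symm, h0⟩)] at h1
        refine h1.trans ?_
        by_cases heG : e ∈ E ∩ G
        · rw [if_pos heG, if_neg hee]
          have : (E.erase e ∩ G).card = m + 1 := by
            rw [Finset.erase_inter, Finset.card_erase_of_mem heG, hmm]
            rfl
          rw [this]
          push_cast
          exact le_refl _
        · rw [if_neg heG]
          have : (E.erase e ∩ G).card = m + 2 := by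
            rw [Finset.erase_inter, Finset.erase_eq_of_notMem heG, hmm]
          rw [this]
          push_cast
          exact le_refl _
    refine (Finset.sum_le_sum hterm).trans ?_
    rw [← Finset.sum_sdiff hsub]
    have s1 : ∑ e ∈ removable x y E \ (E ∩ G),
        (if e ∈ E ∩ G then (if e = e0 then 0 else 1 / ((m : ℝ) + 1)) else 1 / ((m : ℝ) + 2)) =
        ((removable x y E).card - ((m : ℝ) + 2)) * (1 / ((m : ℝ) + 2)) := by
      rw [Finset.sum_congr rfl (g := fun _ => 1 / ((m : ℝ) + 2))]
      · rw [Finset.sum_const, nsmul_eq_mul, Finset.card_sdiff_of_subset hsub]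
        rw [Nat.cast_sub (Finset.card_le_card hsub), hmm]
        push_cast
        ring
      · intro e he
        rw [if_neg (Finset.mem_sdiff.mp he).2]
    have s2 : ∑ e ∈ E ∩ G,
        (if e ∈ E ∩ G then (if e = e0 then 0 else 1 / ((m : ℝ) + 1)) else 1 / ((m : ℝ) + 2)) =
        1 := by
      rw [← Finset.add_sum_erase _ _ h3, if_pos h3, if_pos rfl, zero_add]
      rw [Finset.sum_congr rfl (g := fun _ => 1 / ((m : ℝ) + 1))]
      · rw [Finset.sum_const, nsmul_eq_mul, Finset.card_erase_of_mem h3, hmm]
        have : ((m + 2 - 1 : ℕ) : ℝ) = (m : ℝ) + 1 := by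
          push_cast [show m + 2 - 1 = m + 1 by omega]
          ring
        rw [this]
        field_simp
      · intro e he
        rw [if_pos (Finset.mem_of_mem_erase he), if_neg (Finset.ne_of_mem_erase he)]
    rw [s1, s2, hmm]
    push_cast
    have : (m : ℝ) + 2 ≠ 0 := by positivity
    field_simp
    ring_nf
    exact le_refl _

/-! ### Initial and terminal vertices -/

theorem inits_mono (E : Graph n) (e : Fin n × Fin n) : inits E ⊆ inits (E.erase e) := by
  intro v hv
  rw [inits, Finset.mem_filter] at hv ⊢
  exact ⟨hv.1, fun f hf => hv.2 f (Finset.mem_of_mem_erase hf)⟩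

theorem terms_mono (E : Graph n) (e : Fin n × Fin n) : terms E ⊆ terms (E.erase e) := by
  intro v hv
  rw [terms, Finset.mem_filter] at hv ⊢
  exact ⟨hv.1, fun f hf => hv.2 f (Finset.mem_of_mem_erase hf)⟩

theorem inits_card (E : Graph n) (e : Fin n × Fin n) :
    (inits (E.erase e)).card ≤ (inits E).card + 1 := by
  refine (Finset.card_le_card (t := insert e.2 (inits E)) ?_).trans (Finset.card_insert_le _ _)
  intro v hv
  rw [Finset.mem_insert]
  by_cases h : v = e.2
  · exact Or.inl h
  · right
    rw [inits, Finset.mem_filter] at hv ⊢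
    refine ⟨hv.1, fun f hf hfv => ?_⟩
    refine hv.2 f (Finset.mem_erase.mpr ⟨?_, hf⟩) hfv
    rintro rfl
    exact h hfv.symm

theorem terms_card (E : Graph n) (e : Fin n × Fin n) :
    (terms (E.erase e)).card ≤ (terms E).card + 1 := by
  refine (Finset.card_le_card (t := insert e.1 (terms E)) ?_).trans (Finset.card_insert_le _ _)
  intro v hv
  rw [Finset.mem_insert]
  by_cases h : v = e.1
  · exact Or.inl h
  · right
    rw [terms, Finset.mem_filter] at hv ⊢
    refine ⟨hv.1, fun f hf hfv => ?_⟩
    refine hv.2 f (Finset.mem_erase.mpr ⟨?_, hf⟩) hfv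
    rintro rfl
    exact h hfv.symm

theorem inits_same (E : Graph n) {e e' : Fin n × Fin n} (h : e' ∈ E) (hne : e' ≠ e)
    (h2 : e'.2 = e.2) : (inits (E.erase e)).card ≤ (inits E).card := by
  refine Finset.card_le_card ?_
  intro v hv
  rw [inits, Finset.mem_filter] at hv ⊢
  refine ⟨hv.1, fun f hf hfv => ?_⟩
  by_cases hfe : f = e
  · subst hfe
    exact hv.2 e' (Finset.mem_erase.mpr ⟨hne, h⟩) (h2.trans hfv)
  · exact hv.2 f (Finset.mem_erase.mpr ⟨hfe, hf⟩) hfv

theorem terms_same (E : Graph n) {e e' : Fin n × Fin n} (h : e' ∈ E) (hne : e' ≠ e)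
    (h2 : e'.1 = e.1) : (terms (E.erase e)).card ≤ (terms E).card := by
  refine Finset.card_le_card ?_
  intro v hv
  rw [terms, Finset.mem_filter] at hv ⊢
  refine ⟨hv.1, fun f hf hfv => ?_⟩
  by_cases hfe : f = e
  · subst hfe
    exact hv.2 e' (Finset.mem_erase.mpr ⟨hne, h⟩) (h2.trans hfv)
  · exact hv.2 f (Finset.mem_erase.mpr ⟨hfe, hf⟩) hfv

theorem image_snd (E : Graph n) : (E.image Prod.snd).card + (inits E).card = n := by
  have : E.image Prod.snd = (inits E)ᶜ := by
    ext v
    simp [inits]
  rw [this, Finset.card_compl, Fintype.card_fin]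
  have : (inits E).card ≤ n := by
    simpa using Finset.card_le_univ (inits E)
  omega

theorem image_fst (E : Graph n) : (E.image Prod.fst).card + (terms E).card = n := by
  have : E.image Prod.fst = (terms E)ᶜ := by
    ext v
    simp [terms]
  rw [this, Finset.card_compl, Fintype.card_fin]
  have : (terms E).card ≤ n := by
    simpa using Finset.card_le_univ (terms E)
  omega

/-- The invariant of the process. -/
def Inv (x y : ℕ) (E : Graph n) : Prop :=
  E ⊆ complete n ∧ (inits E).card ≤ x ∧ (terms E).card ≤ y

theorem inv_step (E : Graph n) (h : Inv x y E) (e : Fin n × Fin n) (he : e ∈ removable x y E) :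
    Inv x y (E.erase e) := by
  have := Finset.mem_filter.mp he
  exact ⟨(Finset.erase_subset _ _).trans h.1, this.2.1, this.2.2⟩

theorem not_removable {E : Graph n} (h : removable x y E = ∅) {e : Fin n × Fin n} (he : e ∈ E) :
    ¬ ((inits (E.erase e)).card ≤ x ∧ (terms (E.erase e)).card ≤ y) := by
  intro h'
  have : e ∈ removable x y E := Finset.mem_filter.mpr ⟨he, h'⟩
  rw [h] at this
  exact Finset.notMem_empty _ this

theorem inv_complete (hx : 1 ≤ x) (hy : 1 ≤ y) : Inv x y (complete n) := by
  refine ⟨le_refl _, ?_, ?_⟩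
  · refine le_trans ?_ hx
    rw [Finset.card_le_one]
    intro a ha b hb
    rw [inits, Finset.mem_filter] at ha hb
    by_contra hab
    rcases lt_or_gt_of_ne hab with h | h
    · exact hb.2 (a, b) (Finset.mem_filter.mpr ⟨Finset.mem_univ _, h⟩) rfl
    · exact ha.2 (b, a) (Finset.mem_filter.mpr ⟨Finset.mem_univ _, h⟩) rfl
  · refine le_trans ?_ hy
    rw [Finset.card_le_one]
    intro a ha b hb
    rw [terms, Finset.mem_filter] at ha hb
    by_contra hab
    rcases lt_or_gt_of_ne hab with h | h
    · exact ha.2 (a, b) (Finset.mem_filter.mpr ⟨Finset.mem_univ _, h⟩) rfl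
    · exact hb.2 (b, a) (Finset.mem_filter.mpr ⟨Finset.mem_univ _, h⟩) rfl

theorem card_complete : (complete n).card ≤ n.choose 2 := by
  have h : (complete n).card ≤ (Finset.powersetCard 2 (univ : Finset (Fin n))).card := by
    refine Finset.card_le_card_of_injOn (fun e => {e.1, e.2}) ?_ ?_
    · intro e he
      have := (Finset.mem_filter.mp he).2
      exact Finset.mem_powersetCard.mpr ⟨Finset.subset_univ _, Finset.card_pair (ne_of_lt this)⟩
    · intro e he f hf hef
      have h1 := (Finset.mem_filter.mp he).2
      have h2 := (Finset.mem_filter.mp hf).2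
      obtain ⟨a, b⟩ := e
      obtain ⟨c, d⟩ := f
      simp only at h1 h2 hef
      have ha : a ∈ ({c, d} : Finset (Fin n)) := by rw [← hef]; simp
      have hb : b ∈ ({c, d} : Finset (Fin n)) := by rw [← hef]; simp
      simp only [Finset.mem_insert, Finset.mem_singleton] at ha hb
      rcases ha with rfl | rfl <;> rcases hb with rfl | rfl
      · exact absurd h1 (lt_irrefl _)
      · rfl
      · exact absurd h1 (not_lt.mpr h2.le)
      · exact absurd h1 (lt_irrefl _)
  simpa using h

/-- The process has stopped: every graph that can be reached from a graph with at most `k`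
edges in `k` steps has no removable edge. -/
theorem stopped_of_card (k : ℕ) : ∀ E : Graph n, E.card ≤ k →
    ∀ F ∈ (run x y k E).support, removable x y F = ∅ := by
  induction k with
  | zero =>
    intro E hE F hF
    have h1 : E = ∅ := Finset.card_eq_zero.mp (Nat.le_zero.mp hE)
    simp only [run, PMF.support_pure, Set.mem_singleton_iff] at hF
    subst hF
    subst h1
    rfl
  | succ k ih =>
    intro E hE F hF
    simp only [run, PMF.mem_support_bind_iff] at hF
    obtain ⟨E', hE', hF⟩ := hF
    by_cases h : (removable x y E).Nonempty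
    · rw [step, dif_pos h, PMF.mem_support_map_iff] at hE'
      obtain ⟨e, he, rfl⟩ := hE'
      rw [PMF.support_uniformOfFinset] at he
      have hm : e ∈ E := (Finset.mem_filter.mp he).1
      have := Finset.card_erase_of_mem hm
      exact ih _ (by omega) F hF
    · rw [step, dif_neg h] at hE'
      simp only [PMF.support_pure, Set.mem_singleton_iff] at hE'
      subst hE'
      have hs : removable x y E' = ∅ := Finset.not_nonempty_iff_eq_empty.mp h
      have hall : ∀ j, run x y j E' = PMF.pure E' := by
        intro j
        induction j with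
        | zero => rfl
        | succ j ihj => rw [run, step, dif_neg h, PMF.pure_bind, ihj]
      rw [hall k] at hF
      simp only [PMF.support_pure, Set.mem_singleton_iff] at hF
      rw [hF]
      exact hs

/-- After `n.choose 2` steps from the complete graph the process has stopped. -/
theorem stopped : ∀ F ∈ (run x y (n.choose 2) (complete n)).support, removable x y F = ∅ :=
  stopped_of_card _ _ card_complete

/-! ### The two cases -/

/-- Pairs among the last `y` vertices. -/
def lastPairs (y n : ℕ) : Finset (Fin n × Fin n) :=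
  (complete n).filter fun e => n ≤ e.1.val + y

/-- Pairs among the first `x` vertices. -/
def firstPairs (x n : ℕ) : Finset (Fin n × Fin n) :=
  (complete n).filter fun e => e.2.val < x

/-- Edges with the same target as `e`. -/
def sameTarget (e : Fin n × Fin n) : Finset (Fin n × Fin n) := univ.filter fun f => f.2 = e.2

/-- Edges with the same source as `e`. -/
def sameSource (e : Fin n × Fin n) : Finset (Fin n × Fin n) := univ.filter fun f => f.1 = e.1

theorem card_last (y n : ℕ) : (lastPairs y n).card ≤ y * y := by
  have h : (lastPairs y n).card ≤ ((Finset.range y) ×ˢ (Finset.range y)).card := by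
    refine Finset.card_le_card_of_injOn (fun e => (n - 1 - e.1.val, n - 1 - e.2.val)) ?_ ?_
    · intro e he
      have h1 := (Finset.mem_filter.mp he).2
      have h2 := (Finset.mem_filter.mp (Finset.mem_filter.mp he).1).2
      have h3 := e.1.isLt
      have h4 := e.2.isLt
      have h5 : e.1.val < e.2.val := h2
      simp only [Finset.coe_product, Finset.coe_range, Set.mem_prod, Set.mem_Iio]
      omega
    · intro e _ f _ hef
      have h3 := e.1.isLt
      have h4 := e.2.isLt
      have h5 := f.1.isLt
      have h6 := f.2.isLt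
      simp only [Prod.mk.injEq] at hef
      refine Prod.ext (Fin.ext ?_) (Fin.ext ?_) <;> omega
  simpa using h

theorem card_first (x n : ℕ) : (firstPairs x n).card ≤ x * x := by
  have h : (firstPairs x n).card ≤ ((Finset.range x) ×ˢ (Finset.range x)).card := by
    refine Finset.card_le_card_of_injOn (fun e => (e.1.val, e.2.val)) ?_ ?_
    · intro e he
      have h1 := (Finset.mem_filter.mp he).2
      have h2 := (Finset.mem_filter.mp (Finset.mem_filter.mp he).1).2
      have h5 : e.1.val < e.2.val := h2
      simp only [Finset.coe_product, Finset.coe_range, Set.mem_prod, Set.mem_Iio]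
      omega
    · intro e _ f _ hef
      simp only [Prod.mk.injEq] at hef
      exact Prod.ext (Fin.ext hef.1) (Fin.ext hef.2)
  simpa using h

theorem card_target (e : Fin n × Fin n) : e.2.val ≤ (complete n ∩ sameTarget e).card := by
  have h : (Finset.Iio e.2).card ≤ (complete n ∩ sameTarget e).card := by
    refine Finset.card_le_card_of_injOn (fun a => (a, e.2)) ?_ ?_
    · intro a ha
      have ha' : a < e.2 := by simpa using ha
      simp only [Finset.coe_inter, Set.mem_inter_iff, Finset.mem_coe]
      exact ⟨Finset.mem_filter.mpr ⟨Finset.mem_univ _, ha'⟩,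
        Finset.mem_filter.mpr ⟨Finset.mem_univ _, rfl⟩⟩
    · intro a _ b _ hab
      exact (Prod.mk.inj hab).1
  simpa using h

theorem card_source (e : Fin n × Fin n) : n - 1 - e.1.val ≤ (complete n ∩ sameSource e).card := by
  have h : (Finset.Ioi e.1).card ≤ (complete n ∩ sameSource e).card := by
    refine Finset.card_le_card_of_injOn (fun a => (e.1, a)) ?_ ?_
    · intro a ha
      have ha' : e.1 < a := by simpa using ha
      simp only [Finset.coe_inter, Set.mem_inter_iff, Finset.mem_coe]
      exact ⟨Finset.mem_filter.mpr ⟨Finset.mem_univ _, ha'⟩,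
        Finset.mem_filter.mpr ⟨Finset.mem_univ _, rfl⟩⟩
    · intro a _ b _ hab
      exact (Prod.mk.inj hab).2
  simpa using h

theorem stopped_last (hxy : x ≤ y) (hy : y ≤ n) (F : Graph n) (hI : Inv x y F)
    (hs : removable x y F = ∅) :
    F ∈ {E : Graph n | IsXY x y E} ∨ ∃ e ∈ lastPairs y n,
      F ∈ {E : Graph n | e ∈ E ∧ (E ∩ sameTarget e).card ≤ 1 ∧ (terms E).card < y} := by
  by_cases hF : IsXY x y F
  · exact Or.inl hF
  right
  obtain ⟨hc, hi, ht⟩ := hI
  have hty : (terms F).card < y := by
    by_contra hty
    have hty' : (terms F).card = y := by omega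
    have hix : (inits F).card < x := by
      rcases lt_or_eq_of_le hi with h | h
      · exact h
      · exact absurd ⟨hc, h, hty'⟩ hF
    have hinj : Set.InjOn Prod.fst (F : Set (Fin n × Fin n)) := by
      intro e he f hf hef
      by_contra hne
      refine not_removable hs he ⟨?_, ?_⟩
      · have := inits_card F e
        omega
      · exact (terms_same F hf (fun h => hne h.symm) hef.symm).trans ht
    have h1 := Finset.card_image_of_injOn hinj
    have h2 : (F.image Prod.snd).card ≤ F.card := Finset.card_image_le
    have h3 := image_snd F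
    have h4 := image_fst F
    omega
  have hv : ∃ v : Fin n, n ≤ v.val + y ∧ v ∉ terms F := by
    by_contra hcon
    push Not at hcon
    have hsub : (univ : Finset (Fin n)).filter (fun v => n ≤ v.val + y) ⊆ terms F := by
      intro v hv
      exact hcon v (Finset.mem_filter.mp hv).2
    have hcard : y ≤ ((univ : Finset (Fin n)).filter (fun v => n ≤ v.val + y)).card := by
      have : (Finset.range y).card ≤
          ((univ : Finset (Fin n)).filter (fun v => n ≤ v.val + y)).card := by
        refine Finset.card_le_card_of_injOn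
          (fun i => if h : i < y then (⟨n - 1 - i, by omega⟩ : Fin n) else ⟨0, by omega⟩) ?_ ?_
        · intro i hi
          have hi' : i < y := by simpa using hi
          simp only [dif_pos hi', Finset.coe_filter, Finset.mem_univ, true_and, Set.mem_ofPred_eq]
          omega
        · intro i hi j hj hij
          have hi' : i < y := by simpa using hi
          have hj' : j < y := by simpa using hj
          simp only [dif_pos hi', dif_pos hj', Fin.mk.injEq] at hij
          omega
      simpa using this
    have := Finset.card_le_card hsub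
    omega
  obtain ⟨v, hvn, hvt⟩ := hv
  have : ∃ e ∈ F, e.1 = v := by
    by_contra hcon
    push Not at hcon
    exact hvt (Finset.mem_filter.mpr ⟨Finset.mem_univ _, hcon⟩)
  obtain ⟨e, he, hev⟩ := this
  refine ⟨e, Finset.mem_filter.mpr ⟨hc he, by rw [hev]; exact hvn⟩, he, ?_, hty⟩
  rw [Finset.card_le_one]
  intro a ha b hb
  have ha1 := Finset.mem_inter.mp ha
  have hb1 := Finset.mem_inter.mp hb
  have ha2 : a.2 = e.2 := (Finset.mem_filter.mp ha1.2).2
  have hb2 : b.2 = e.2 := (Finset.mem_filter.mp hb1.2).2
  by_contra hne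
  refine not_removable hs ha1.1 ⟨?_, ?_⟩
  · exact (inits_same F hb1.1 (fun h => hne h.symm) (hb2.trans ha2.symm)).trans hi
  · have := terms_card F a
    omega

theorem stopped_first (hxy : y ≤ x) (hx : x ≤ n) (F : Graph n) (hI : Inv x y F)
    (hs : removable x y F = ∅) :
    F ∈ {E : Graph n | IsXY x y E} ∨ ∃ e ∈ firstPairs x n,
      F ∈ {E : Graph n | e ∈ E ∧ (E ∩ sameSource e).card ≤ 1 ∧ (inits E).card < x} := by
  by_cases hF : IsXY x y F
  · exact Or.inl hF
  right
  obtain ⟨hc, hi, ht⟩ := hI
  have hix : (inits F).card < x := by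
    by_contra hix
    have hix' : (inits F).card = x := by omega
    have hty : (terms F).card < y := by
      rcases lt_or_eq_of_le ht with h | h
      · exact h
      · exact absurd ⟨hc, hix', h⟩ hF
    have hinj : Set.InjOn Prod.snd (F : Set (Fin n × Fin n)) := by
      intro e he f hf hef
      by_contra hne
      refine not_removable hs he ⟨?_, ?_⟩
      · exact (inits_same F hf (fun h => hne h.symm) hef.symm).trans hi
      · have := terms_card F e
        omega
    have h1 := Finset.card_image_of_injOn hinj
    have h2 : (F.image Prod.fst).card ≤ F.card := Finset.card_image_le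
    have h3 := image_snd F
    have h4 := image_fst F
    omega
  have hv : ∃ v : Fin n, v.val < x ∧ v ∉ inits F := by
    by_contra hcon
    push Not at hcon
    have hsub : (univ : Finset (Fin n)).filter (fun v => v.val < x) ⊆ inits F := by
      intro v hv
      exact hcon v (Finset.mem_filter.mp hv).2
    have hcard : x ≤ ((univ : Finset (Fin n)).filter (fun v => v.val < x)).card := by
      have : (Finset.range x).card ≤
          ((univ : Finset (Fin n)).filter (fun v => v.val < x)).card := by
        refine Finset.card_le_card_of_injOn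
          (fun i => if h : i < x then (⟨i, by omega⟩ : Fin n) else ⟨0, by omega⟩) ?_ ?_
        · intro i hi
          have hi' : i < x := by simpa using hi
          simp only [dif_pos hi', Finset.coe_filter, Finset.mem_univ, true_and, Set.mem_ofPred_eq]
          exact hi'
        · intro i hi j hj hij
          have hi' : i < x := by simpa using hi
          have hj' : j < x := by simpa using hj
          simp only [dif_pos hi', dif_pos hj', Fin.mk.injEq] at hij
          omega
      simpa using this
    have := Finset.card_le_card hsub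
    omega
  obtain ⟨v, hvn, hvt⟩ := hv
  have : ∃ e ∈ F, e.2 = v := by
    by_contra hcon
    push Not at hcon
    exact hvt (Finset.mem_filter.mpr ⟨Finset.mem_univ _, hcon⟩)
  obtain ⟨e, he, hev⟩ := this
  refine ⟨e, Finset.mem_filter.mpr ⟨hc he, by rw [hev]; exact hvn⟩, he, ?_, hix⟩
  rw [Finset.card_le_one]
  intro a ha b hb
  have ha1 := Finset.mem_inter.mp ha
  have hb1 := Finset.mem_inter.mp hb
  have ha2 : a.1 = e.1 := (Finset.mem_filter.mp ha1.2).2
  have hb2 : b.1 = e.1 := (Finset.mem_filter.mp hb1.2).2
  by_contra hne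
  refine not_removable hs ha1.1 ⟨?_, ?_⟩
  · have := inits_card F a
    omega
  · exact (terms_same F hb1.1 (fun h => hne h.symm) (hb2.trans ha2.symm)).trans ht

theorem lower_last (hx : 1 ≤ x) (hxy : x ≤ y) (hn : y < n) :
    1 - ((y * y : ℕ) : ℝ) / ((n : ℝ) - y) ≤ r x y n := by
  have hy : 1 ≤ y := hx.trans hxy
  have h1 := cover (x := x) (y := y) (Inv x y) inv_step (lastPairs y n)
    {E : Graph n | IsXY x y E}
    (fun e => {E : Graph n | e ∈ E ∧ (E ∩ sameTarget e).card ≤ 1 ∧ (terms E).card < y})
    (stopped_last hxy hn.le) (n.choose 2) (complete n) (inv_complete hx hy) card_complete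
  have h2 : ∀ e ∈ lastPairs y n, q x y (n.choose 2) (complete n)
      {E : Graph n | e ∈ E ∧ (E ∩ sameTarget e).card ≤ 1 ∧ (terms E).card < y} ≤
      1 / ((n : ℝ) - y) := by
    intro e he
    have hec : e ∈ complete n := (Finset.mem_filter.mp he).1
    have hp := potential (x := x) (y := y) (Inv x y) (fun E => (terms E).card < y)
      (sameTarget e) e (Finset.mem_filter.mpr ⟨Finset.mem_univ _, rfl⟩) inv_step
      (fun E f h h' => h (lt_of_le_of_lt (Finset.card_le_card (terms_mono E f)) h')) ?_
      (n.choose 2) (complete n) (inv_complete hx hy)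
    · refine hp.trans ?_
      rw [if_pos hec]
      have h3 := card_target e
      have h4 : e.1.val < e.2.val := (Finset.mem_filter.mp hec).2
      have h5 := (Finset.mem_filter.mp he).2
      have h6 : (n : ℝ) - y ≤ ((complete n ∩ sameTarget e).card : ℝ) := by
        have h7 : n ≤ (complete n ∩ sameTarget e).card + y := by omega
        have h8 : (n : ℝ) ≤ ((complete n ∩ sameTarget e).card : ℝ) + y := by exact_mod_cast h7
        linarith
      have h9 : (0 : ℝ) < (n : ℝ) - y := by
        have : (y : ℝ) < n := by exact_mod_cast hn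
        linarith
      exact one_div_le_one_div_of_le h9 h6
    · intro E hE hPE h2 f hf
      have hf1 := Finset.mem_inter.mp hf
      obtain ⟨g, hg, hgf⟩ := Finset.exists_mem_ne (by omega : 1 < (E ∩ sameTarget e).card) f
      have hg1 := Finset.mem_inter.mp hg
      have hf2 : f.2 = e.2 := (Finset.mem_filter.mp hf1.2).2
      have hg2 : g.2 = e.2 := (Finset.mem_filter.mp hg1.2).2
      refine Finset.mem_filter.mpr ⟨hf1.1, ?_, ?_⟩
      · exact (inits_same E hg1.1 hgf (hg2.trans hf2.symm)).trans hE.2.1
      · have := terms_card E f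
        omega
  have h3 : ∑ e ∈ lastPairs y n, q x y (n.choose 2) (complete n)
      {E : Graph n | e ∈ E ∧ (E ∩ sameTarget e).card ≤ 1 ∧ (terms E).card < y} ≤
      ((y * y : ℕ) : ℝ) / ((n : ℝ) - y) := by
    have h9 : (0 : ℝ) < (n : ℝ) - y := by
      have : (y : ℝ) < n := by exact_mod_cast hn
      linarith
    calc _ ≤ ∑ e ∈ lastPairs y n, 1 / ((n : ℝ) - y) := Finset.sum_le_sum h2
      _ = ((lastPairs y n).card : ℝ) * (1 / ((n : ℝ) - y)) := by
        rw [Finset.sum_const, nsmul_eq_mul]
      _ ≤ ((y * y : ℕ) : ℝ) * (1 / ((n : ℝ) - y)) := by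
        refine mul_le_mul_of_nonneg_right ?_ (by positivity)
        exact_mod_cast card_last y n
      _ = _ := by ring
  have h4 : r x y n = q x y (n.choose 2) (complete n) {E : Graph n | IsXY x y E} := rfl
  rw [h4]
  linarith

theorem lower_first (hy : 1 ≤ y) (hxy : y ≤ x) (hn : x < n) :
    1 - ((x * x : ℕ) : ℝ) / ((n : ℝ) - x) ≤ r x y n := by
  have hx : 1 ≤ x := hy.trans hxy
  have h1 := cover (x := x) (y := y) (Inv x y) inv_step (firstPairs x n)
    {E : Graph n | IsXY x y E}
    (fun e => {E : Graph n | e ∈ E ∧ (E ∩ sameSource e).card ≤ 1 ∧ (inits E).card < x})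
    (stopped_first hxy hn.le) (n.choose 2) (complete n) (inv_complete hx hy) card_complete
  have h2 : ∀ e ∈ firstPairs x n, q x y (n.choose 2) (complete n)
      {E : Graph n | e ∈ E ∧ (E ∩ sameSource e).card ≤ 1 ∧ (inits E).card < x} ≤
      1 / ((n : ℝ) - x) := by
    intro e he
    have hec : e ∈ complete n := (Finset.mem_filter.mp he).1
    have hp := potential (x := x) (y := y) (Inv x y) (fun E => (inits E).card < x)
      (sameSource e) e (Finset.mem_filter.mpr ⟨Finset.mem_univ _, rfl⟩) inv_step
      (fun E f h h' => h (lt_of_le_of_lt (Finset.card_le_card (inits_mono E f)) h')) ?_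
      (n.choose 2) (complete n) (inv_complete hx hy)
    · refine hp.trans ?_
      rw [if_pos hec]
      have h3 := card_source e
      have h4 : e.1.val < e.2.val := (Finset.mem_filter.mp hec).2
      have h5 := (Finset.mem_filter.mp he).2
      have h6 : (n : ℝ) - x ≤ ((complete n ∩ sameSource e).card : ℝ) := by
        have h7 : n ≤ (complete n ∩ sameSource e).card + x := by omega
        have h8 : (n : ℝ) ≤ ((complete n ∩ sameSource e).card : ℝ) + x := by exact_mod_cast h7
        linarith
      have h9 : (0 : ℝ) < (n : ℝ) - x := by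
        have : (x : ℝ) < n := by exact_mod_cast hn
        linarith
      exact one_div_le_one_div_of_le h9 h6
    · intro E hE hPE h2 f hf
      have hf1 := Finset.mem_inter.mp hf
      obtain ⟨g, hg, hgf⟩ := Finset.exists_mem_ne (by omega : 1 < (E ∩ sameSource e).card) f
      have hg1 := Finset.mem_inter.mp hg
      have hf2 : f.1 = e.1 := (Finset.mem_filter.mp hf1.2).2
      have hg2 : g.1 = e.1 := (Finset.mem_filter.mp hg1.2).2
      refine Finset.mem_filter.mpr ⟨hf1.1, ?_, ?_⟩
      · have := inits_card E f
        omega
      · exact (terms_same E hg1.1 hgf (hg2.trans hf2.symm)).trans hE.2.2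
  have h3 : ∑ e ∈ firstPairs x n, q x y (n.choose 2) (complete n)
      {E : Graph n | e ∈ E ∧ (E ∩ sameSource e).card ≤ 1 ∧ (inits E).card < x} ≤
      ((x * x : ℕ) : ℝ) / ((n : ℝ) - x) := by
    have h9 : (0 : ℝ) < (n : ℝ) - x := by
      have : (x : ℝ) < n := by exact_mod_cast hn
      linarith
    calc _ ≤ ∑ e ∈ firstPairs x n, 1 / ((n : ℝ) - x) := Finset.sum_le_sum h2
      _ = ((firstPairs x n).card : ℝ) * (1 / ((n : ℝ) - x)) := by
        rw [Finset.sum_const, nsmul_eq_mul]
      _ ≤ ((x * x : ℕ) : ℝ) * (1 / ((n : ℝ) - x)) := by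
        refine mul_le_mul_of_nonneg_right ?_ (by positivity)
        exact_mod_cast card_first x n
      _ = _ := by ring
  have h4 : r x y n = q x y (n.choose 2) (complete n) {E : Graph n | IsXY x y E} := rfl
  rw [h4]
  linarith

theorem tendsto_bound (z : ℕ) :
    Tendsto (fun n : ℕ => 1 - ((z * z : ℕ) : ℝ) / ((n : ℝ) - z)) atTop (𝓝 1) := by
  have h1 : Tendsto (fun n : ℕ => (n : ℝ) - z) atTop atTop :=
    tendsto_atTop_add_const_right _ _ tendsto_natCast_atTop_atTop
  have h2 := (tendsto_const_nhds (x := ((z * z : ℕ) : ℝ))).div_atTop h1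
  simpa using (tendsto_const_nhds (x := (1 : ℝ))).sub h2

/-- For all fixed `x, y ≥ 1` the `(x,y)` edge removal process on `n` vertices stops at an
`(x,y)` task dependency graph with probability tending to one. -/
theorem result : ∀ x y : ℕ, 1 ≤ x → 1 ≤ y → Tendsto (fun n : ℕ => r x y n) atTop (𝓝 1) := by
  intro x y hx hy
  have hle : ∀ n, r x y n ≤ 1 := fun n => q_le_one _ _ _
  rcases le_total x y with hxy | hxy
  · refine tendsto_of_tendsto_of_tendsto_of_le_of_le' (tendsto_bound y) tendsto_const_nhds ?_
      (Eventually.of_forall hle)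
    filter_upwards [eventually_gt_atTop y] with n hn
    exact lower_last hx hxy hn
  · refine tendsto_of_tendsto_of_tendsto_of_le_of_le' (tendsto_bound x) tendsto_const_nhds ?_
      (Eventually.of_forall hle)
    filter_upwards [eventually_gt_atTop x] with n hn
    exact lower_first hy hxy hn

end Pool.Agent.Results.MP_f59edb_pr.LimitOne
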